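import Pool.Agent.H514.GL.Defs

/-!
GL-4. Mean values of periodic functions over the region.
-/

set_option autoImplicit false

open scoped Classical

namespace Pool.Agent.H514.GL

open Finset

/-- the statement of GL-1 -/
def Lat (C : ℝ) : Prop := 0 ≤ C ∧ ∀ R m a b : ℕ, 1 ≤ R → 1 ≤ m →
    |((Rc R m a b).card : ℝ) - (Rg R).card / (m : ℝ) ^ 2| ≤ C * (Real.sqrt R / m + 1)

/-- a local function modulo `p` -/
structure Lf (p : ℕ) (g : ℕ × ℕ → ℂ) (η : ℝ) : Prop where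
  mod : ∀ s t : ℕ × ℕ, s.1 ≡ t.1 [MOD p] → s.2 ≡ t.2 [MOD p] → g s = g t
  zero : ∀ t : ℕ × ℕ, ¬ p ∣ t.1 * t.2 * (t.1 + t.2) → g t = 0
  bound : ∀ t : ℕ × ℕ, ‖g t‖ ≤ η

/-- the mean value modulo `p` -/
noncomputable def mn (p : ℕ) (g : ℕ × ℕ → ℂ) : ℂ :=
  (∑ s ∈ range p ×ˢ range p, g s) / (p : ℂ) ^ 2

namespace G4

/-! ### the Chinese remainder theorem -/

lemma crt_one {A : Type*} [AddCommMonoid A] {m n : ℕ} (hm : m ≠ 0) (hn : n ≠ 0)
    (h : m.Coprime n) (Φ : ℕ → ℕ → A) :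
    ∑ x ∈ range (m * n), Φ (x % m) (x % n) = ∑ i ∈ range m, ∑ j ∈ range n, Φ i j := by
  rw [← Finset.sum_product' (range m) (range n) Φ]
  refine Finset.sum_bij' (fun x _ => (x % m, x % n))
    (fun y _ => (Nat.chineseRemainder h y.1 y.2 : ℕ)) ?_ ?_ ?_ ?_ ?_
  · intro x _
    rw [mem_product, mem_range, mem_range]
    exact ⟨Nat.mod_lt _ (Nat.pos_of_ne_zero hm), Nat.mod_lt _ (Nat.pos_of_ne_zero hn)⟩
  · intro y _
    rw [mem_range]
    exact Nat.chineseRemainder_lt_mul h _ _ hm hn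
  · intro x hx
    rw [mem_range] at hx
    have h1 : x ≡ x % m [MOD m] := (Nat.mod_modEq x m).symm
    have h2 : x ≡ x % n [MOD n] := (Nat.mod_modEq x n).symm
    have h3 := Nat.chineseRemainder_modEq_unique h h1 h2
    exact (Nat.ModEq.eq_of_lt_of_lt h3 hx (Nat.chineseRemainder_lt_mul h _ _ hm hn)).symm
  · rintro ⟨a, b⟩ hy
    rw [mem_product, mem_range, mem_range] at hy
    have h1 : (Nat.chineseRemainder h a b : ℕ) % m = a % m := (Nat.chineseRemainder h a b).2.1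
    have h2 : (Nat.chineseRemainder h a b : ℕ) % n = b % n := (Nat.chineseRemainder h a b).2.2
    rw [Nat.mod_eq_of_lt hy.1] at h1
    rw [Nat.mod_eq_of_lt hy.2] at h2
    exact Prod.ext h1 h2
  · intro x _
    rfl

lemma crt_two {A : Type*} [CommSemiring A] {m n : ℕ} (hm : m ≠ 0) (hn : n ≠ 0)
    (h : m.Coprime n) {F H : ℕ × ℕ → A}
    (hF : ∀ s t : ℕ × ℕ, s.1 ≡ t.1 [MOD m] → s.2 ≡ t.2 [MOD m] → F s = F t)
    (hH : ∀ s t : ℕ × ℕ, s.1 ≡ t.1 [MOD n] → s.2 ≡ t.2 [MOD n] → H s = H t) :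
    ∑ s ∈ range (m * n) ×ˢ range (m * n), F s * H s =
      (∑ s ∈ range m ×ˢ range m, F s) * ∑ s ∈ range n ×ˢ range n, H s := by
  have e1 : ∑ s ∈ range (m * n) ×ˢ range (m * n), F s * H s =
      ∑ x ∈ range (m * n), ∑ y ∈ range (m * n), F (x % m, y % m) * H (x % n, y % n) := by
    rw [Finset.sum_product]
    refine Finset.sum_congr rfl fun x _ => Finset.sum_congr rfl fun y _ => ?_
    rw [hF (x, y) (x % m, y % m) (Nat.mod_modEq x m).symm (Nat.mod_modEq y m).symm,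
      hH (x, y) (x % n, y % n) (Nat.mod_modEq x n).symm (Nat.mod_modEq y n).symm]
  rw [e1]
  have e2 : ∀ x ∈ range (m * n), ∑ y ∈ range (m * n), F (x % m, y % m) * H (x % n, y % n) =
      (fun i j : ℕ => ∑ k ∈ range m, ∑ l ∈ range n, F (i, k) * H (j, l)) (x % m) (x % n) := by
    intro x _
    exact crt_one hm hn h (fun k l => F (x % m, k) * H (x % n, l))
  rw [Finset.sum_congr rfl e2,
    crt_one hm hn h (fun i j : ℕ => ∑ k ∈ range m, ∑ l ∈ range n, F (i, k) * H (j, l))]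
  rw [Finset.sum_product, Finset.sum_product, Finset.sum_mul_sum]
  refine Finset.sum_congr rfl fun i _ => Finset.sum_congr rfl fun j _ => ?_
  rw [Finset.sum_mul_sum]

/-- the product of periodic functions is periodic -/
lemma prod_mod {A : Type*} [CommSemiring A] (D : Finset ℕ) {f : ℕ → ℕ × ℕ → A}
    (hf : ∀ p ∈ D, ∀ s t : ℕ × ℕ, s.1 ≡ t.1 [MOD p] → s.2 ≡ t.2 [MOD p] → f p s = f p t) :
    ∀ s t : ℕ × ℕ, s.1 ≡ t.1 [MOD ∏ p ∈ D, p] → s.2 ≡ t.2 [MOD ∏ p ∈ D, p] →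
      ∏ p ∈ D, f p s = ∏ p ∈ D, f p t := by
  intro s t h1 h2
  refine Finset.prod_congr rfl fun p hp => ?_
  have hd : p ∣ ∏ p ∈ D, p := Finset.dvd_prod_of_mem (fun p => p) hp
  exact hf p hp s t (h1.of_dvd hd) (h2.of_dvd hd)

lemma crt_prod {A : Type*} [CommSemiring A] (D : Finset ℕ) {f : ℕ → ℕ × ℕ → A}
    (hD : ∀ p ∈ D, p.Prime)
    (hf : ∀ p ∈ D, ∀ s t : ℕ × ℕ, s.1 ≡ t.1 [MOD p] → s.2 ≡ t.2 [MOD p] → f p s = f p t) :
    ∑ s ∈ range (∏ p ∈ D, p) ×ˢ range (∏ p ∈ D, p), ∏ p ∈ D, f p s =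
      ∏ p ∈ D, ∑ s ∈ range p ×ˢ range p, f p s := by
  induction D using Finset.induction_on with
  | empty => simp
  | insert q D hq ih =>
    have hD' : ∀ p ∈ D, p.Prime := fun p hp => hD p (mem_insert_of_mem hp)
    have hf' : ∀ p ∈ D, ∀ s t : ℕ × ℕ, s.1 ≡ t.1 [MOD p] → s.2 ≡ t.2 [MOD p] → f p s = f p t :=
      fun p hp => hf p (mem_insert_of_mem hp)
    have hqp : q.Prime := hD q (mem_insert_self q D)
    have hco : q.Coprime (∏ p ∈ D, p) := by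
      refine Nat.Coprime.prod_right fun p hp => ?_
      rw [Nat.coprime_primes hqp (hD' p hp)]
      rintro rfl
      exact hq hp
    have hne : (∏ p ∈ D, p) ≠ 0 := Finset.prod_ne_zero_iff.2 fun p hp => (hD' p hp).ne_zero
    rw [Finset.prod_insert hq, Finset.prod_insert hq]
    have e1 : ∀ s : ℕ × ℕ, ∏ p ∈ insert q D, f p s = f q s * ∏ p ∈ D, f p s := fun s =>
      Finset.prod_insert hq
    simp only [e1]
    rw [crt_two hqp.ne_zero hne hco (hf q (mem_insert_self q D)) (prod_mod D hf'), ih hD' hf']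

/-! ### one prime -/

lemma card_le {p : ℕ} (hp : p.Prime) :
    ((range p ×ˢ range p).filter (fun s : ℕ × ℕ => p ∣ s.1 * s.2 * (s.1 + s.2))).card ≤ 3 * p := by
  have hsub : (range p ×ˢ range p).filter (fun s : ℕ × ℕ => p ∣ s.1 * s.2 * (s.1 + s.2)) ⊆
      ((range p).image (fun x => (0, x)) ∪ (range p).image (fun x => (x, 0))) ∪
        (range p).image (fun x => (x, (p - x) % p)) := by
    rintro ⟨u, v⟩ hs
    rw [mem_filter, mem_product, mem_range, mem_range] at hs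
    obtain ⟨⟨hu, hv⟩, hdvd⟩ := hs
    simp only at hu hv hdvd
    rw [mem_union, mem_union, mem_image, mem_image, mem_image]
    rcases (Nat.Prime.dvd_mul hp).1 hdvd with h | h
    · rcases (Nat.Prime.dvd_mul hp).1 h with h | h
      · have := Nat.eq_zero_of_dvd_of_lt h hu
        subst this
        exact Or.inl (Or.inl ⟨v, mem_range.2 hv, rfl⟩)
      · have := Nat.eq_zero_of_dvd_of_lt h hv
        subst this
        exact Or.inl (Or.inr ⟨u, mem_range.2 hu, rfl⟩)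
    · refine Or.inr ⟨u, mem_range.2 hu, ?_⟩
      refine Prod.ext rfl ?_
      change (p - u) % p = v
      obtain ⟨c, hc⟩ := h
      have hc2 : c < 2 := by
        by_contra hcon
        have : p * 2 ≤ p * c := Nat.mul_le_mul_left p (not_lt.1 hcon)
        omega
      interval_cases c
      · have hu0 : u = 0 := by omega
        have hv0 : v = 0 := by omega
        rw [hu0, hv0, Nat.sub_zero, Nat.mod_self]
      · have hv' : p - u = v := by omega
        rw [hv', Nat.mod_eq_of_lt hv]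
  refine (Finset.card_le_card hsub).trans ?_
  refine (Finset.card_union_le _ _).trans ?_
  have h1 := Finset.card_union_le ((range p).image (fun x => ((0 : ℕ), x)))
    ((range p).image (fun x => (x, (0 : ℕ))))
  have h2 : ((range p).image (fun x => ((0 : ℕ), x))).card ≤ p := by
    simpa using (Finset.card_image_le (s := range p) (f := fun x => ((0 : ℕ), x)))
  have h3 : ((range p).image (fun x => (x, (0 : ℕ)))).card ≤ p := by
    simpa using (Finset.card_image_le (s := range p) (f := fun x => (x, (0 : ℕ))))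
  have h4 : ((range p).image (fun x => (x, (p - x) % p))).card ≤ p := by
    simpa using (Finset.card_image_le (s := range p) (f := fun x => (x, (p - x) % p)))
  omega

lemma sum_norm_le {p : ℕ} (hp : p.Prime) {g : ℕ × ℕ → ℂ} {η : ℝ} (h : Lf p g η) :
    ∑ s ∈ range p ×ˢ range p, ‖g s‖ ≤ 3 * η * p := by
  have hη : 0 ≤ η := (norm_nonneg _).trans (h.bound (0, 0))
  have e1 : ∑ s ∈ range p ×ˢ range p, ‖g s‖ =
      ∑ s ∈ (range p ×ˢ range p).filter (fun s : ℕ × ℕ => p ∣ s.1 * s.2 * (s.1 + s.2)), ‖g s‖ := by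
    rw [Finset.sum_filter]
    refine Finset.sum_congr rfl fun s _ => ?_
    split_ifs with hs
    · rfl
    · rw [h.zero s hs, norm_zero]
  rw [e1]
  refine (Finset.sum_le_card_nsmul _ _ η fun s _ => h.bound s).trans ?_
  rw [nsmul_eq_mul]
  have h2 : ((((range p ×ˢ range p).filter
      (fun s : ℕ × ℕ => p ∣ s.1 * s.2 * (s.1 + s.2))).card : ℕ) : ℝ) ≤ 3 * p := by
    exact_mod_cast card_le hp
  calc _ ≤ (3 * (p : ℝ)) * η := mul_le_mul_of_nonneg_right h2 hη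
    _ = 3 * η * p := by ring

end G4

open G4

theorem mn_le {p : ℕ} (hp : p.Prime) {g : ℕ × ℕ → ℂ} {η : ℝ} (h : Lf p g η) :
    ‖mn p g‖ ≤ 3 * η / p := by
  have hp0 : (0 : ℝ) < p := by exact_mod_cast hp.pos
  unfold mn
  rw [norm_div, norm_pow, Complex.norm_natCast]
  have h1 : ‖∑ s ∈ range p ×ˢ range p, g s‖ ≤ 3 * η * p :=
    (norm_sum_le _ _).trans (sum_norm_le hp h)
  rw [div_le_div_iff₀ (by positivity) hp0]
  calc ‖∑ s ∈ range p ×ˢ range p, g s‖ * p ≤ 3 * η * p * p :=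
        mul_le_mul_of_nonneg_right h1 hp0.le
    _ = 3 * η * (p : ℝ) ^ 2 := by ring

namespace G4

/-! ### the distribution in classes -/

lemma fiber_eq {R W d a b : ℕ} (hco : W.Coprime d) {ρ : ℕ × ℕ} (hρ : ρ ∈ range d ×ˢ range d) :
    (Rc R W a b).filter (fun t => (t.1 % d, t.2 % d) = ρ) =
      Rc R (W * d) (Nat.chineseRemainder hco a ρ.1) (Nat.chineseRemainder hco b ρ.2) := by
  rw [mem_product, mem_range, mem_range] at hρ
  have key : ∀ x c r : ℕ, r < d → ((x ≡ c [MOD W] ∧ x % d = r) ↔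
      x ≡ (Nat.chineseRemainder hco c r : ℕ) [MOD W * d]) := by
    intro x c r hr
    obtain ⟨h1, h2⟩ := (Nat.chineseRemainder hco c r).2
    constructor
    · rintro ⟨h3, h4⟩
      refine (Nat.modEq_and_modEq_iff_modEq_mul hco).1 ⟨h3.trans h1.symm, ?_⟩
      refine Nat.ModEq.trans ?_ h2.symm
      change x % d = r % d
      rw [h4, Nat.mod_eq_of_lt hr]
    · intro h3
      obtain ⟨h4, h5⟩ := (Nat.modEq_and_modEq_iff_modEq_mul hco).2 h3
      refine ⟨h4.trans h1, ?_⟩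
      have h6 : x % d = r % d := h5.trans h2
      rw [h6, Nat.mod_eq_of_lt hr]
  ext t
  unfold Rc
  rw [mem_filter, mem_filter, mem_filter, Prod.ext_iff]
  have k1 := key t.1 a ρ.1 hρ.1
  have k2 := key t.2 b ρ.2 hρ.2
  constructor
  · rintro ⟨⟨h1, h2, h3⟩, h4, h5⟩
    exact ⟨h1, k1.1 ⟨h2, h4⟩, k2.1 ⟨h3, h5⟩⟩
  · rintro ⟨h1, h2, h3⟩
    exact ⟨⟨h1, (k1.2 h2).1, (k2.2 h3).1⟩, (k1.2 h2).2, (k2.2 h3).2⟩

lemma class_sum {C : ℝ} (hC : Lat C) {R W d a b : ℕ} (hR : 1 ≤ R) (hW : 1 ≤ W) (hd : 1 ≤ d)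
    (hco : W.Coprime d) {G : ℕ × ℕ → ℂ}
    (hG : ∀ s t : ℕ × ℕ, s.1 ≡ t.1 [MOD d] → s.2 ≡ t.2 [MOD d] → G s = G t) :
    ‖∑ t ∈ Rc R W a b, G t -
      ((Rg R).card : ℂ) / (W : ℂ) ^ 2 * ((∑ s ∈ range d ×ˢ range d, G s) / (d : ℂ) ^ 2)‖ ≤
      C * (Real.sqrt R / (W * d) + 1) * ∑ s ∈ range d ×ˢ range d, ‖G s‖ := by
  have hd0 : 0 < d := hd
  have hWc : (W : ℂ) ≠ 0 := by exact_mod_cast (by omega : W ≠ 0)
  have hdc : (d : ℂ) ≠ 0 := by exact_mod_cast hd0.ne'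
  set N : ℂ := ((Rg R).card : ℂ) / ((W * d : ℕ) : ℂ) ^ 2 with hN
  have e1 : ∑ t ∈ Rc R W a b, G t = ∑ ρ ∈ range d ×ˢ range d,
      ((Rc R (W * d) (Nat.chineseRemainder hco a ρ.1) (Nat.chineseRemainder hco b ρ.2)).card : ℂ) *
        G ρ := by
    rw [← Finset.sum_fiberwise_of_maps_to (s := Rc R W a b) (t := range d ×ˢ range d)
      (g := fun t => (t.1 % d, t.2 % d))]
    · refine Finset.sum_congr rfl fun ρ hρ => ?_
      have e2 : ∑ t ∈ (Rc R W a b).filter (fun t => (t.1 % d, t.2 % d) = ρ), G t =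
          ∑ t ∈ (Rc R W a b).filter (fun t => (t.1 % d, t.2 % d) = ρ), G ρ := by
        refine Finset.sum_congr rfl fun t ht => ?_
        rw [mem_filter] at ht
        rw [← ht.2]
        exact hG _ _ (Nat.mod_modEq _ _).symm (Nat.mod_modEq _ _).symm
      rw [e2, Finset.sum_const, nsmul_eq_mul, fiber_eq hco hρ]
    · intro t _
      rw [mem_product, mem_range, mem_range]
      exact ⟨Nat.mod_lt _ hd0, Nat.mod_lt _ hd0⟩
  have e3 : ((Rg R).card : ℂ) / (W : ℂ) ^ 2 * ((∑ s ∈ range d ×ˢ range d, G s) / (d : ℂ) ^ 2) =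
      ∑ ρ ∈ range d ×ˢ range d, N * G ρ := by
    rw [← Finset.mul_sum, hN]
    push_cast
    field_simp
  rw [e1, e3, ← Finset.sum_sub_distrib, Finset.mul_sum]
  refine (norm_sum_le _ _).trans (Finset.sum_le_sum fun ρ _ => ?_)
  rw [← sub_mul, norm_mul]
  refine mul_le_mul_of_nonneg_right ?_ (norm_nonneg _)
  have h1 := hC.2 R (W * d) (Nat.chineseRemainder hco a ρ.1) (Nat.chineseRemainder hco b ρ.2) hR
    (Nat.mul_pos hW hd)
  have e4 : ((Rc R (W * d) (Nat.chineseRemainder hco a ρ.1)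
      (Nat.chineseRemainder hco b ρ.2)).card : ℂ) - N =
      (((((Rc R (W * d) (Nat.chineseRemainder hco a ρ.1)
        (Nat.chineseRemainder hco b ρ.2)).card : ℝ) -
        (Rg R).card / ((W * d : ℕ) : ℝ) ^ 2 : ℝ)) : ℂ) := by
    rw [hN]
    push_cast
    rfl
  rw [e4, Complex.norm_real, Real.norm_eq_abs]
  refine h1.trans (le_of_eq ?_)
  push_cast
  rfl

end G4

theorem avg {C : ℝ} (hC : Lat C) {R W a b : ℕ} (hR : 1 ≤ R) (hW : 1 ≤ W) {D : Finset ℕ}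
    (hD : ∀ p ∈ D, p.Prime ∧ p.Coprime W) {g : ℕ → ℕ × ℕ → ℂ} {η : ℝ}
    (hg : ∀ p ∈ D, Lf p (g p) η) :
    ‖∑ t ∈ Rc R W a b, ∏ p ∈ D, g p t - ((Rg R).card : ℂ) / (W : ℂ) ^ 2 * ∏ p ∈ D, mn p (g p)‖ ≤
      C * (3 * η) ^ D.card * (Real.sqrt R + ∏ p ∈ D, (p : ℝ)) := by
  have hDp : ∀ p ∈ D, p.Prime := fun p hp => (hD p hp).1
  set d : ℕ := ∏ p ∈ D, p with hd
  have hd1 : 1 ≤ d := Nat.pos_of_ne_zero (Finset.prod_ne_zero_iff.2 fun p hp => (hDp p hp).ne_zero)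
  have hco : W.Coprime d := Nat.Coprime.prod_right fun p hp => (hD p hp).2.symm
  have hGm : ∀ s t : ℕ × ℕ, s.1 ≡ t.1 [MOD d] → s.2 ≡ t.2 [MOD d] →
      ∏ p ∈ D, g p s = ∏ p ∈ D, g p t := prod_mod D (fun p hp => (hg p hp).mod)
  have h1 := class_sum hC hR hW hd1 hco (a := a) (b := b) hGm
  have e1 : (∑ s ∈ range d ×ˢ range d, ∏ p ∈ D, g p s) / (d : ℂ) ^ 2 = ∏ p ∈ D, mn p (g p) := by
    rw [crt_prod D hDp (fun p hp => (hg p hp).mod)]
    unfold mn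
    rw [Finset.prod_div_distrib, Finset.prod_pow, hd]
    push_cast
    rfl
  have e2 : ∑ s ∈ range d ×ˢ range d, ‖∏ p ∈ D, g p s‖ ≤ (3 * η) ^ D.card * d := by
    have e3 : ∑ s ∈ range d ×ˢ range d, ‖∏ p ∈ D, g p s‖ =
        ∏ p ∈ D, ∑ s ∈ range p ×ˢ range p, ‖g p s‖ := by
      rw [← crt_prod D (f := fun p s => ‖g p s‖) hDp
        (fun p hp s t h1 h2 => by rw [(hg p hp).mod s t h1 h2])]
      exact Finset.sum_congr rfl fun s _ => norm_prod _ _
    rw [e3]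
    calc ∏ p ∈ D, ∑ s ∈ range p ×ˢ range p, ‖g p s‖ ≤ ∏ p ∈ D, (3 * η * (p : ℝ)) :=
          Finset.prod_le_prod (fun p _ => Finset.sum_nonneg fun s _ => norm_nonneg _)
            (fun p hp => sum_norm_le (hDp p hp) (hg p hp))
      _ = (3 * η) ^ D.card * d := by
          rw [Finset.prod_mul_distrib, Finset.prod_const, hd]
          push_cast
          rfl
  rw [e1] at h1
  refine h1.trans ?_
  have hWr : (1 : ℝ) ≤ W := by exact_mod_cast hW
  have hdr : (0 : ℝ) < d := by exact_mod_cast hd1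
  have hfac : 0 ≤ C * (Real.sqrt R / (W * d) + 1) :=
    mul_nonneg hC.1 (by positivity)
  have hpow : 0 ≤ (3 * η) ^ D.card := by
    rcases D.eq_empty_or_nonempty with h | ⟨p, hp⟩
    · rw [h]; simp
    · have : 0 ≤ η := (norm_nonneg _).trans ((hg p hp).bound (0, 0))
      positivity
  calc C * (Real.sqrt R / (W * d) + 1) * ∑ s ∈ range d ×ˢ range d, ‖∏ p ∈ D, g p s‖
      ≤ C * (Real.sqrt R / (W * d) + 1) * ((3 * η) ^ D.card * d) :=
        mul_le_mul_of_nonneg_left e2 hfac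
    _ = C * (3 * η) ^ D.card * (Real.sqrt R / W + d) := by
        field_simp
    _ ≤ C * (3 * η) ^ D.card * (Real.sqrt R + ∏ p ∈ D, (p : ℝ)) := by
        refine mul_le_mul_of_nonneg_left ?_ (mul_nonneg hC.1 hpow)
        have h2 : Real.sqrt R / W ≤ Real.sqrt R := div_le_self (Real.sqrt_nonneg _) hWr
        have h3 : (d : ℝ) = ∏ p ∈ D, (p : ℝ) := by rw [hd]; push_cast; rfl
        rw [h3]
        linarith

theorem avg_abs {C C0 : ℝ} (hC : Lat C) (hC0 : ∀ R : ℕ, 1 ≤ R → ((Rg R).card : ℝ) ≤ C0 * R)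
    {R W a b : ℕ} (hR : 1 ≤ R) (hW : 1 ≤ W) {D : Finset ℕ}
    (hD : ∀ p ∈ D, p.Prime ∧ p.Coprime W) (hDR : (∏ p ∈ D, (p : ℝ)) ≤ Real.sqrt R)
    {g : ℕ → ℕ × ℕ → ℂ} {η : ℝ} (hg : ∀ p ∈ D, Lf p (g p) η) :
    ∑ t ∈ Rc R W a b, ∏ p ∈ D, ‖g p t‖ ≤ (C0 + 2 * C) * R * ∏ p ∈ D, (3 * η / p) := by
  set g' : ℕ → ℕ × ℕ → ℂ := fun p t => ((‖g p t‖ : ℝ) : ℂ) with hg'
  have hLf : ∀ p ∈ D, Lf p (g' p) η := by
    intro p hp
    refine ⟨fun s t h1 h2 => ?_, fun t ht => ?_, fun t => ?_⟩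
    · rw [hg']
      simp only
      rw [(hg p hp).mod s t h1 h2]
    · rw [hg']
      simp only
      rw [(hg p hp).zero t ht, norm_zero, Complex.ofReal_zero]
    · rw [hg']
      simp only
      rw [Complex.norm_real, norm_norm]
      exact (hg p hp).bound t
  have h1 := avg hC hR hW hD hLf (a := a) (b := b)
  have e1 : ∑ t ∈ Rc R W a b, ∏ p ∈ D, g' p t =
      ((∑ t ∈ Rc R W a b, ∏ p ∈ D, ‖g p t‖ : ℝ) : ℂ) := by
    rw [hg']
    push_cast
    rfl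
  set S : ℝ := ∑ t ∈ Rc R W a b, ∏ p ∈ D, ‖g p t‖ with hS
  have hS0 : 0 ≤ S := Finset.sum_nonneg fun t _ => Finset.prod_nonneg fun p _ => norm_nonneg _
  rw [e1] at h1
  set Q : ℝ := ∏ p ∈ D, (3 * η / p) with hQ
  have hQ0 : 0 ≤ Q := by
    refine Finset.prod_nonneg fun p hp => ?_
    have : 0 ≤ η := (norm_nonneg _).trans ((hg p hp).bound (0, 0))
    positivity
  have hmain : ‖((Rg R).card : ℂ) / (W : ℂ) ^ 2 * ∏ p ∈ D, mn p (g' p)‖ ≤ C0 * R * Q := by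
    rw [norm_mul, norm_div, norm_pow, Complex.norm_natCast, Complex.norm_natCast, norm_prod]
    have hWr : (1 : ℝ) ≤ (W : ℝ) ^ 2 := by
      have : (1 : ℝ) ≤ W := by exact_mod_cast hW
      nlinarith
    have a1 : ((Rg R).card : ℝ) / (W : ℝ) ^ 2 ≤ C0 * R :=
      (div_le_self (Nat.cast_nonneg _) hWr).trans (hC0 R hR)
    have a2 : ∏ p ∈ D, ‖mn p (g' p)‖ ≤ Q :=
      Finset.prod_le_prod (fun p _ => norm_nonneg _) (fun p hp => mn_le (hD p hp).1 (hLf p hp))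
    have a3 : 0 ≤ C0 * R := le_trans (by positivity) a1
    exact mul_le_mul a1 a2 (Finset.prod_nonneg fun p _ => norm_nonneg _) a3
  have h2 : S ≤ C0 * R * Q + C * (3 * η) ^ D.card * (Real.sqrt R + ∏ p ∈ D, (p : ℝ)) := by
    have h3 : ‖((S : ℝ) : ℂ)‖ ≤ ‖((S : ℝ) : ℂ) -
        ((Rg R).card : ℂ) / (W : ℂ) ^ 2 * ∏ p ∈ D, mn p (g' p)‖ +
        ‖((Rg R).card : ℂ) / (W : ℂ) ^ 2 * ∏ p ∈ D, mn p (g' p)‖ := by
      have := norm_add_le (((S : ℝ) : ℂ) - ((Rg R).card : ℂ) / (W : ℂ) ^ 2 * ∏ p ∈ D, mn p (g' p))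
        (((Rg R).card : ℂ) / (W : ℂ) ^ 2 * ∏ p ∈ D, mn p (g' p))
      rwa [sub_add_cancel] at this
    rw [Complex.norm_real, Real.norm_eq_abs, abs_of_nonneg hS0] at h3
    linarith
  have hp0 : ∀ p ∈ D, (p : ℝ) ≠ 0 := fun p hp => by exact_mod_cast (hD p hp).1.ne_zero
  have e2 : (3 * η) ^ D.card = Q * ∏ p ∈ D, (p : ℝ) := by
    rw [hQ, ← Finset.prod_mul_distrib, ← Finset.prod_const]
    exact Finset.prod_congr rfl fun p hp => (div_mul_cancel₀ _ (hp0 p hp)).symm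
  set P : ℝ := ∏ p ∈ D, (p : ℝ) with hP
  have hP0 : 0 ≤ P := Finset.prod_nonneg fun p _ => Nat.cast_nonneg _
  have hsq : Real.sqrt R * Real.sqrt R = R := Real.mul_self_sqrt (Nat.cast_nonneg _)
  have h4 : P * (Real.sqrt R + P) ≤ 2 * R := by
    have h5 : P * (Real.sqrt R + P) ≤ Real.sqrt R * (Real.sqrt R + Real.sqrt R) :=
      mul_le_mul hDR (by linarith) (by positivity) (Real.sqrt_nonneg _)
    nlinarith
  have h6 : C * (3 * η) ^ D.card * (Real.sqrt R + P) ≤ 2 * C * R * Q := by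
    rw [e2]
    calc C * (Q * P) * (Real.sqrt R + P) = C * Q * (P * (Real.sqrt R + P)) := by ring
      _ ≤ C * Q * (2 * R) := mul_le_mul_of_nonneg_left h4 (mul_nonneg hC.1 hQ0)
      _ = 2 * C * R * Q := by ring
  calc S ≤ C0 * R * Q + C * (3 * η) ^ D.card * (Real.sqrt R + P) := h2
    _ ≤ C0 * R * Q + 2 * C * R * Q := by linarith
    _ = (C0 + 2 * C) * R * Q := by ring

end Pool.Agent.H514.GL
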